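import Mathlib

/-!
MP_009fd8_ag, descent by the isogeny of degree 2 on the curves y^2 = x (x^2 + A x + B):
definitions.
-/

namespace Pool.Agent.MP009fd8R

open IsDedekindDomain NumberField

/-- The covering C_(A,B,d) : d N^2 = d^2 M^4 + A d M^2 e^2 + B e^4 (N of weight 2, M and e of
weight 1) of the curve E_(A,B) : y^2 = x (x^2 + A x + B), through x = d M^2 / e^2,
y = d M N / e^3, has a point over the field F. -/
def HasPt {F : Type*} [Field F] (A B d : F) : Prop :=
  ∃ N M e : F, (M ≠ 0 ∨ e ≠ 0) ∧ d * N ^ 2 = d ^ 2 * M ^ 4 + A * d * M ^ 2 * e ^ 2 + B * e ^ 4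

/-- The covering C_(A,B,d) has a point over the completion of K at every finite place and over
the real numbers for every real embedding of K. -/
def LocSol (K : Type*) [Field K] [NumberField K] (A B d : K) : Prop :=
  (∀ v : HeightOneSpectrum (𝓞 K),
    HasPt (algebraMap K (v.adicCompletion K) A) (algebraMap K (v.adicCompletion K) B)
      (algebraMap K (v.adicCompletion K) d)) ∧
  ∀ f : K →+* ℝ, HasPt (f A) (f B) (f d)

end Pool.Agent.MP009fd8R
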