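import Pool.Agent.Lib.MP_009fd8_agR.Def

/-!
MP_009fd8_ag, descent on y^2 = x^3 + b x: elementary facts on the coverings over valued fields
and over the real numbers.
-/

namespace Pool.Agent.MP009fd8R

variable {F : Type*} [Field F]

/-- Translation by (0, 0), together with a rescaling. -/
theorem HasPt.swap {A B d : F} (hd : d ≠ 0) (h : HasPt A B d) : HasPt A B (B * d) := by
  obtain ⟨N, M, e, hne, h⟩ := h
  refine ⟨d * N, e, d * M, ?_, ?_⟩
  · rcases hne with h1 | h1
    · exact Or.inr (mul_ne_zero hd h1)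
    · exact Or.inl h1
  · linear_combination (B * d ^ 2) * h

/-- Rescaling by a square. -/
theorem HasPt.mul_sq {A B d r : F} (hr : r ≠ 0) (h : HasPt A B d) : HasPt A B (d * r ^ 2) := by
  obtain ⟨N, M, e, hne, h⟩ := h
  refine ⟨N / r, M / r, e, ?_, ?_⟩
  · rcases hne with h1 | h1
    · exact Or.inl (div_ne_zero h1 hr)
    · exact Or.inr h1
  · field_simp
    linear_combination h

/-- The square class of 1 has a point. -/
theorem hasPt_of_isSquare {A B d : F} (hd : d ≠ 0) (h : IsSquare d) : HasPt A B d := by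
  obtain ⟨r, rfl⟩ := h
  have hr : r ≠ 0 := by
    rintro rfl
    simp at hd
  exact ⟨r, 1, 0, Or.inl one_ne_zero, by ring⟩

theorem HasPt.map {G : Type*} [Field G] (f : F →+* G) {A B d : F} (h : HasPt A B d) :
    HasPt (f A) (f B) (f d) := by
  obtain ⟨N, M, e, hne, h⟩ := h
  refine ⟨f N, f M, f e, ?_, ?_⟩
  · rcases hne with h1 | h1
    · exact Or.inl ((map_ne_zero f).mpr h1)
    · exact Or.inr ((map_ne_zero f).mpr h1)
  · have := congrArg f h
    simpa only [map_add, map_mul, map_pow] using this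

/-- Over the reals, if A = 2 a, B = a^2 + l with l positive then d is positive. -/
theorem real_pos {a l d : ℝ} (hl : 0 < l) (hd : d ≠ 0) (h : HasPt (2 * a) (a ^ 2 + l) d) :
    0 < d := by
  obtain ⟨N, M, e, hne, h⟩ := h
  have h0 : d * N ^ 2 = (d * M ^ 2 + a * e ^ 2) ^ 2 + l * e ^ 4 := by rw [h]; ring
  have h1 : 0 < (d * M ^ 2 + a * e ^ 2) ^ 2 + l * e ^ 4 := by
    by_cases he : e = 0
    · have hM : M ≠ 0 := by
        rcases hne with h2 | h2
        · exact h2
        · exact absurd he h2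
      subst he
      have : 0 < (d * M ^ 2) ^ 2 := by positivity
      simpa using this
    · have : 0 < l * e ^ 4 := by positivity
      have h3 : 0 ≤ (d * M ^ 2 + a * e ^ 2) ^ 2 := sq_nonneg _
      linarith
  by_contra hneg
  have h2 : d ≤ 0 := not_lt.mp hneg
  have h3 : d * N ^ 2 ≤ 0 := mul_nonpos_of_nonpos_of_nonneg h2 (sq_nonneg N)
  linarith

variable {Γ : Type*} [LinearOrderedCommGroupWithZero Γ]

private theorem sq_of_mul {x s r : Γ} (h : x * s = r) (hs : s ≠ 0) (h1 : IsSquare s)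
    (h2 : IsSquare r) : IsSquare x := by
  have e : x = r / s := eq_div_of_mul_eq hs h
  rw [e]
  exact h2.div h1

/-- If A is integral and B is a unit at v and C_(A,B,d) has a point then the valuation of d is even
(also at the places above 2). -/
theorem isSquare_val (v : Valuation F Γ) {A B d : F} (hd : d ≠ 0) (hA : v A ≤ 1) (hB : v B = 1)
    (h : HasPt A B d) : IsSquare (v d) := by
  obtain ⟨N, M, e, hne, h⟩ := h
  have hvd : v d ≠ 0 := (Valuation.ne_zero_iff v).2 hd
  have e1 : v (d * N ^ 2) = v d * v N ^ 2 := by rw [map_mul, map_pow]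
  have e2 : v (d ^ 2 * M ^ 4) = (v d * v M ^ 2) ^ 2 := by
    rw [map_mul, map_pow, map_pow, mul_pow, ← pow_mul]
  have e3 : v (B * e ^ 4) = (v e ^ 2) ^ 2 := by
    rw [map_mul, map_pow, hB, one_mul, ← pow_mul]
  have e4 : v (A * d * M ^ 2 * e ^ 2) ≤ (v d * v M ^ 2) * v e ^ 2 := by
    rw [map_mul, map_mul, map_mul, map_pow, map_pow]
    calc v A * v d * v M ^ 2 * v e ^ 2 = v A * (v d * v M ^ 2 * v e ^ 2) := by
          simp only [mul_assoc]
      _ ≤ 1 * (v d * v M ^ 2 * v e ^ 2) := by gcongr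
      _ = _ := by rw [one_mul]
  rcases lt_trichotomy (v d * v M ^ 2) (v e ^ 2) with hlt | heq | hgt
  · have hpos : (0 : Γ) < v e ^ 2 := lt_of_le_of_lt zero_le hlt
    have hm1 : v (d ^ 2 * M ^ 4) < v (B * e ^ 4) := by
      rw [e2, e3]
      exact pow_lt_pow_left₀ hlt zero_le two_ne_zero
    have hm2 : v (A * d * M ^ 2 * e ^ 2) < v (B * e ^ 4) := by
      refine lt_of_le_of_lt e4 ?_
      rw [e3, pow_two (v e ^ 2)]
      exact mul_lt_mul_of_pos_right hlt hpos
    have h1 : v d * v N ^ 2 = (v e ^ 2) ^ 2 := by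
      rw [← e1, h, Valuation.map_add_eq_of_lt_right _ (Valuation.map_add_lt _ hm1 hm2), e3]
    have h3 : v N ^ 2 ≠ 0 := by
      intro h0
      rw [h0, mul_zero] at h1
      exact (pow_pos hpos 2).ne h1
    exact sq_of_mul h1 h3 (IsSquare.sq _) (IsSquare.sq _)
  · have hM : v M ^ 2 ≠ 0 := by
      intro h0
      rw [h0, mul_zero] at heq
      have hM0 : M = 0 := by
        have := (pow_eq_zero_iff two_ne_zero).1 h0
        exact (Valuation.zero_iff v).1 this
      have he0 : e = 0 := by
        have := (pow_eq_zero_iff two_ne_zero).1 heq.symm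
        exact (Valuation.zero_iff v).1 this
      rcases hne with h2 | h2
      · exact h2 hM0
      · exact h2 he0
    exact sq_of_mul heq hM (IsSquare.sq _) (IsSquare.sq _)
  · have hpos : (0 : Γ) < v d * v M ^ 2 := lt_of_le_of_lt zero_le hgt
    have hm1 : v (B * e ^ 4) < v (d ^ 2 * M ^ 4) := by
      rw [e2, e3]
      exact pow_lt_pow_left₀ hgt zero_le two_ne_zero
    have hm2 : v (A * d * M ^ 2 * e ^ 2) < v (d ^ 2 * M ^ 4) := by
      refine lt_of_le_of_lt e4 ?_
      rw [e2, pow_two (v d * v M ^ 2)]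
      exact mul_lt_mul_of_pos_left hgt hpos
    have h1 : v d * v N ^ 2 = (v d * v M ^ 2) ^ 2 := by
      rw [← e1, h, add_assoc,
        Valuation.map_add_eq_of_lt_left _ (Valuation.map_add_lt _ hm2 hm1), e2]
    have h2 : v N ^ 2 = v d * (v M ^ 2) ^ 2 := by
      apply mul_left_cancel₀ hvd
      rw [h1]
      simp only [pow_two]
      simp only [mul_assoc, mul_left_comm]
    have h3 : (v M ^ 2) ^ 2 ≠ 0 := by
      intro h0
      have : v M ^ 2 = 0 := (pow_eq_zero_iff two_ne_zero).1 h0
      rw [this, mul_zero] at hpos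
      exact (lt_irrefl _) hpos
    exact sq_of_mul h2.symm h3 (IsSquare.sq _) (IsSquare.sq _)

/-- Units of the valuation ring. -/
theorem isUnit_of_val (v : Valuation F Γ) {x : v.integer} (hx : v (x : F) = 1) : IsUnit x := by
  have hx0 : (x : F) ≠ 0 := by
    intro h0
    rw [h0, map_zero] at hx
    exact zero_ne_one hx
  refine IsUnit.of_mul_eq_one (⟨(x : F)⁻¹, ?_⟩ : v.integer) ?_
  · rw [Valuation.mem_integer_iff, map_inv₀, hx, inv_one]
  · apply Subtype.ext
    simp [hx0]

theorem val_of_isUnit (v : Valuation F Γ) {x : v.integer} (hx : IsUnit x) : v (x : F) = 1 := by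
  obtain ⟨y, hy⟩ := hx.exists_right_inv
  have e1 : v (x : F) * v (y : F) = 1 := by
    rw [← map_mul]
    have := congrArg (fun t : v.integer => v (t : F)) hy
    simpa using this
  apply le_antisymm x.2
  by_contra hlt
  rw [not_le] at hlt
  have : v (x : F) * v (y : F) < 1 := by
    calc v (x : F) * v (y : F) ≤ v (x : F) * 1 := by
          exact mul_le_mul_right y.2 _
      _ < 1 := by rw [mul_one]; exact hlt
  exact (ne_of_lt this) e1

/-- A solution of u N^2 = A M^4 + C M^2 e^2 + B e^4 over the field gives a primitive integral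
one. -/
theorem exists_integral (v : Valuation F Γ) (u A C B : v.integer) (hu : IsUnit u) {N M e : F}
    (hne : M ≠ 0 ∨ e ≠ 0)
    (h : (u : F) * N ^ 2 = (A : F) * M ^ 4 + (C : F) * (M ^ 2 * e ^ 2) + (B : F) * e ^ 4) :
    ∃ N' M' e' : v.integer, (IsUnit M' ∨ IsUnit e') ∧
      u * N' ^ 2 = A * M' ^ 4 + C * (M' ^ 2 * e' ^ 2) + B * e' ^ 4 := by
  -- divide by the larger of M and e
  obtain ⟨z, hz0, hz, hMz, hez⟩ : ∃ z : F, z ≠ 0 ∧ (z = M ∨ z = e) ∧ v M ≤ v z ∧ v e ≤ v z := by
    rcases le_total (v M) (v e) with hle | hle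
    · refine ⟨e, ?_, Or.inr rfl, hle, le_rfl⟩
      rintro rfl
      rw [map_zero, le_zero_iff, Valuation.zero_iff] at hle
      rcases hne with h1 | h1
      · exact h1 hle
      · exact h1 rfl
    · refine ⟨M, ?_, Or.inl rfl, le_rfl, hle⟩
      rintro rfl
      rw [map_zero, le_zero_iff, Valuation.zero_iff] at hle
      rcases hne with h1 | h1
      · exact h1 rfl
      · exact h1 hle
  have hvz : 0 < v z := zero_lt_iff.2 ((Valuation.ne_zero_iff v).2 hz0)
  have hdiv : ∀ x : F, v x ≤ v z → v (x / z) ≤ 1 := by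
    intro x hx
    rw [map_div₀]
    exact (div_le_one₀ hvz).2 hx
  have hM1 := hdiv M hMz
  have he1 := hdiv e hez
  have hvu := val_of_isUnit v hu
  have h' : (u : F) * (N / z ^ 2) ^ 2 =
      (A : F) * (M / z) ^ 4 + (C : F) * ((M / z) ^ 2 * (e / z) ^ 2) + (B : F) * (e / z) ^ 4 := by
    field_simp
    linear_combination h
  have hN1 : v (N / z ^ 2) ≤ 1 := by
    have h1 : v ((u : F) * (N / z ^ 2) ^ 2) ≤ 1 := by
      rw [h']
      refine Valuation.map_add_le _ (Valuation.map_add_le _ ?_ ?_) ?_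
      · rw [map_mul, map_pow]
        exact mul_le_one' A.2 (pow_le_one' hM1 4)
      · rw [map_mul, map_mul, map_pow, map_pow]
        exact mul_le_one' C.2 (mul_le_one' (pow_le_one' hM1 2) (pow_le_one' he1 2))
      · rw [map_mul, map_pow]
        exact mul_le_one' B.2 (pow_le_one' he1 4)
    rw [map_mul, map_pow, hvu, one_mul] at h1
    exact (pow_le_one_iff_of_nonneg zero_le two_ne_zero).1 h1
  refine ⟨⟨N / z ^ 2, hN1⟩, ⟨M / z, hM1⟩, ⟨e / z, he1⟩, ?_, ?_⟩
  · rcases hz with rfl | rfl
    · left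
      apply isUnit_of_val
      show v (z / z) = 1
      rw [div_self hz0, map_one]
    · right
      apply isUnit_of_val
      show v (z / z) = 1
      rw [div_self hz0, map_one]
  · apply Subtype.ext
    exact h'

end Pool.Agent.MP009fd8R
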