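import Mathlib

/-!
MP_009fd8_ag, descent on y^2 = x^3 + q x: the place 2, computations in an unramified ring of
integers O (every element is a unit or divisible by 2).
-/

namespace Pool.Agent.MP009fd8R

variable {O : Type*} [CommRing O] [IsDomain O]

section

variable (h20 : (2 : O) ≠ 0) (h2u : ¬ IsUnit (2 : O)) (hmax : ∀ x : O, IsUnit x ∨ 2 ∣ x)

include h2u in
theorem not_two_dvd_unit {x : O} (hx : IsUnit x) : ¬ 2 ∣ x := fun h =>
  h2u (isUnit_of_dvd_unit h hx)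

include h2u hmax in
theorem two_dvd_of_two_dvd_sq {x : O} (h : 2 ∣ x ^ 2) : 2 ∣ x := by
  rcases hmax x with hx | hx
  · exact absurd h (not_two_dvd_unit h2u (hx.pow 2))
  · exact hx

include h2u hmax in
theorem isUnit_add_two_mul {x y : O} (hx : IsUnit x) : IsUnit (x + 2 * y) := by
  rcases hmax (x + 2 * y) with h | h
  · exact h
  · exfalso
    apply not_two_dvd_unit h2u hx
    have : x = (x + 2 * y) - 2 * y := by ring
    rw [this]
    exact dvd_sub h (dvd_mul_right 2 y)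

include h2u hmax in
theorem two_dvd_of_mul_unit {u x : O} (hu : IsUnit u) (h : 2 ∣ u * x) : 2 ∣ x := by
  obtain ⟨w, hw⟩ := hu.exists_left_inv
  have : x = w * (u * x) := by rw [← mul_assoc, hw, one_mul]
  rw [this]
  exact dvd_mul_of_dvd_right h w

/-- The equation u N^2 = 2 R with R a unit has no solution. -/
theorem no_sol_unit (h20 : (2 : O) ≠ 0) (h2u : ¬ IsUnit (2 : O)) (hmax : ∀ x : O, IsUnit x ∨ 2 ∣ x)
    {u N R : O} (hu : IsUnit u) (hR : IsUnit R) (h : u * N ^ 2 = 2 * R) : False := by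
  have h1 : (2 : O) ∣ N := by
    apply two_dvd_of_two_dvd_sq h2u hmax
    apply two_dvd_of_mul_unit h2u hmax hu
    rw [h]; exact dvd_mul_right 2 R
  obtain ⟨n, rfl⟩ := h1
  have h3 : R = 2 * (u * n ^ 2) := by
    apply mul_left_cancel₀ h20
    linear_combination -h
  exact not_two_dvd_unit h2u hR ⟨_, h3⟩

/-- The covering of class u over the place 2: u or - l u is a square modulo 4. -/
theorem ring_unit (h20 : (2 : O) ≠ 0) (h2u : ¬ IsUnit (2 : O)) (hmax : ∀ x : O, IsUnit x ∨ 2 ∣ x)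
    {u a l N M e : O} (hu : IsUnit u) (hMe : IsUnit M ∨ IsUnit e)
    (h : u * N ^ 2 = u ^ 2 * M ^ 4 + (-4 * a * u) * (M ^ 2 * e ^ 2) + (-4 * l) * e ^ 4) :
    (∃ g, (4 : O) ∣ u - g ^ 2) ∨ (∃ g, (4 : O) ∣ -l * u - g ^ 2) := by
  obtain ⟨w, hw⟩ := hu.exists_left_inv
  rcases hmax M with hM | hM
  · left
    obtain ⟨m, hm⟩ := hM.exists_left_inv
    refine ⟨N * m ^ 2, (a * (M ^ 2 * e ^ 2) + w * (l * e ^ 4)) * m ^ 4, ?_⟩
    have e1 : N ^ 2 = u * M ^ 4 - 4 * (a * (M ^ 2 * e ^ 2) + w * (l * e ^ 4)) := by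
      have : N ^ 2 = w * (u * N ^ 2) := by rw [← mul_assoc, hw, one_mul]
      rw [this, h]
      linear_combination (u * M ^ 4 - 4 * a * (M ^ 2 * e ^ 2)) * hw
    have e2 : m ^ 4 * M ^ 4 = 1 := by rw [← mul_pow, hm, one_pow]
    linear_combination (-m ^ 4) * e1 - u * e2
  · right
    obtain ⟨m, rfl⟩ := hM
    have he : IsUnit e := by
      rcases hMe with h1 | h1
      · exact absurd (dvd_mul_right 2 m) (not_two_dvd_unit h2u h1)
      · exact h1
    obtain ⟨f, hf⟩ := he.exists_left_inv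
    have h1 : (2 : O) ∣ N := by
      apply two_dvd_of_two_dvd_sq h2u hmax
      apply two_dvd_of_mul_unit h2u hmax hu
      rw [h]
      exact ⟨8 * u ^ 2 * m ^ 4 - 8 * a * u * (m ^ 2 * e ^ 2) - 2 * l * e ^ 4, by ring⟩
    obtain ⟨n, rfl⟩ := h1
    have h40 : (4 : O) ≠ 0 := by
      have : (4 : O) = 2 * 2 := by norm_num
      rw [this]; exact mul_ne_zero h20 h20
    have h3 : u * n ^ 2 = 4 * u ^ 2 * m ^ 4 - 4 * a * u * (m ^ 2 * e ^ 2) - l * e ^ 4 := by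
      apply mul_left_cancel₀ h40
      linear_combination h
    refine ⟨u * n * f ^ 2, (-u ^ 3 * m ^ 4 + a * u ^ 2 * (m ^ 2 * e ^ 2)) * f ^ 4, ?_⟩
    have e2 : f ^ 4 * e ^ 4 = 1 := by rw [← mul_pow, hf, one_pow]
    linear_combination (-u * f ^ 4) * h3 + (l * u) * e2

/-- The covering of class 2 u over the place 2: M and e are units. -/
theorem ring_two_aux (h20 : (2 : O) ≠ 0) (h2u : ¬ IsUnit (2 : O))
    (hmax : ∀ x : O, IsUnit x ∨ 2 ∣ x)
    {u a l N M e : O} (hu : IsUnit u) (hl : IsUnit l) (hMe : IsUnit M ∨ IsUnit e)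
    (h : u * N ^ 2 = (2 * u ^ 2) * M ^ 4 + (-4 * a * u) * (M ^ 2 * e ^ 2) + (-2 * l) * e ^ 4) :
    ∃ n m : O, IsUnit m ∧
      u * n ^ 2 = 2 * ((u * m ^ 2) ^ 2 - 2 * a * (u * m ^ 2) - l) := by
  have hboth : IsUnit M ∧ IsUnit e := by
    rcases hmax M with hM | hM
    · refine ⟨hM, ?_⟩
      rcases hmax e with he | he
      · exact he
      · exfalso
        obtain ⟨f, rfl⟩ := he
        refine no_sol_unit h20 h2u hmax hu
          (R := u ^ 2 * M ^ 4 + 2 * (-4 * a * u * (M ^ 2 * f ^ 2) - 8 * l * f ^ 4))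
          (isUnit_add_two_mul h2u hmax ((hu.pow 2).mul (hM.pow 4))) (N := N) ?_
        linear_combination h
    · exfalso
      have he : IsUnit e := by
        rcases hMe with h1 | h1
        · exact absurd hM (not_two_dvd_unit h2u h1)
        · exact h1
      obtain ⟨m, rfl⟩ := hM
      refine no_sol_unit h20 h2u hmax hu
        (R := -(l * e ^ 4) + 2 * (8 * u ^ 2 * m ^ 4 - 4 * a * u * (m ^ 2 * e ^ 2)))
        (isUnit_add_two_mul h2u hmax (hl.mul (he.pow 4)).neg) (N := N) ?_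
      linear_combination h
  obtain ⟨hM, he⟩ := hboth
  obtain ⟨f, hf⟩ := he.exists_left_inv
  have hfu : IsUnit f := IsUnit.of_mul_eq_one _ hf
  refine ⟨N * f ^ 2, M * f, hM.mul hfu, ?_⟩
  have e2 : f ^ 4 * e ^ 4 = 1 := by rw [← mul_pow, hf, one_pow]
  have e3 : f ^ 2 * e ^ 2 = 1 := by rw [← mul_pow, hf, one_pow]
  linear_combination f ^ 4 * h + (-2 * l) * e2 + (-4 * a * u * M ^ 2 * f ^ 2) * e3

/-- Case (I): l = - c^2 + 4 t. -/
theorem ring_two_I (h20 : (2 : O) ≠ 0) (h2u : ¬ IsUnit (2 : O))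
    (hmax : ∀ x : O, IsUnit x ∨ 2 ∣ x)
    {u a l c t n m : O} (hu : IsUnit u) (hm : IsUnit m) (hlc : l = -c ^ 2 + 4 * t)
    (h : u * n ^ 2 = 2 * ((u * m ^ 2) ^ 2 - 2 * a * (u * m ^ 2) - l)) :
    ∃ s k : O, u * m ^ 2 = c + 2 * k ∧ (c + 2 * k) * (s ^ 2 - c + a) = 2 * (k ^ 2 - t) := by
  have h1 : (2 : O) ∣ u * m ^ 2 - c := by
    rcases hmax (u * m ^ 2 - c) with hx | hx
    · exfalso
      refine no_sol_unit h20 h2u hmax hu
        (R := (u * m ^ 2 - c) ^ 2 + 2 * ((c - a) * (u * m ^ 2) - 2 * t))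
        (isUnit_add_two_mul h2u hmax (hx.pow 2)) (N := n) ?_
      rw [h, hlc]; ring
    · exact hx
  obtain ⟨k, hk⟩ := h1
  have hk' : u * m ^ 2 = c + 2 * k := by linear_combination hk
  have h40 : (4 : O) ≠ 0 := by
    have : (4 : O) = 2 * 2 := by norm_num
    rw [this]; exact mul_ne_zero h20 h20
  have h3 : u * n ^ 2 = 4 * ((c - a) * (c + 2 * k) + 2 * (k ^ 2 - t)) := by
    rw [h, hk', hlc]; ring
  have h4 : (2 : O) ∣ n := by
    apply two_dvd_of_two_dvd_sq h2u hmax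
    apply two_dvd_of_mul_unit h2u hmax hu
    rw [h3]
    exact ⟨2 * ((c - a) * (c + 2 * k) + 2 * (k ^ 2 - t)), by ring⟩
  obtain ⟨r, rfl⟩ := h4
  have h5 : u * r ^ 2 = (c - a) * (c + 2 * k) + 2 * (k ^ 2 - t) := by
    apply mul_left_cancel₀ h40
    linear_combination h3
  obtain ⟨f, hf⟩ := hm.exists_left_inv
  refine ⟨r * f, k, hk', ?_⟩
  have e2 : f ^ 2 * m ^ 2 = 1 := by rw [← mul_pow, hf, one_pow]
  linear_combination (-(r ^ 2 * f ^ 2)) * hk' + (u * r ^ 2) * e2 + h5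

/-- Two classes 2 u and 2 u' in case (I): u u' is a square modulo 4. -/
theorem ring_two_I_pair (h20 : (2 : O) ≠ 0) (h2u : ¬ IsUnit (2 : O))
    (hmax : ∀ x : O, IsUnit x ∨ 2 ∣ x)
    {u a l c t n m u' n' m' : O} (hu : IsUnit u) (hu' : IsUnit u') (hc : IsUnit c)
    (hm : IsUnit m) (hm' : IsUnit m')
    (hlc : l = -c ^ 2 + 4 * t)
    (h : u * n ^ 2 = 2 * ((u * m ^ 2) ^ 2 - 2 * a * (u * m ^ 2) - l))
    (h' : u' * n' ^ 2 = 2 * ((u' * m' ^ 2) ^ 2 - 2 * a * (u' * m' ^ 2) - l)) :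
    ∃ g, (4 : O) ∣ u * u' - g ^ 2 := by
  obtain ⟨s, k, hk, hs⟩ := ring_two_I h20 h2u hmax hu hm hlc h
  obtain ⟨s', k', hk', hs'⟩ := ring_two_I h20 h2u hmax hu' hm' hlc h'
  have a1 : (2 : O) ∣ s ^ 2 - c + a := by
    apply two_dvd_of_mul_unit h2u hmax (isUnit_add_two_mul h2u hmax (y := k) hc)
    rw [hs]; exact dvd_mul_right _ _
  have a2 : (2 : O) ∣ s' ^ 2 - c + a := by
    apply two_dvd_of_mul_unit h2u hmax (isUnit_add_two_mul h2u hmax (y := k') hc)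
    rw [hs']; exact dvd_mul_right _ _
  obtain ⟨w, hw⟩ := a1
  obtain ⟨w', hw'⟩ := a2
  have b1 : (c + 2 * k) * w = k ^ 2 - t := by
    apply mul_left_cancel₀ h20
    rw [← hs, hw]; ring
  have b2 : (c + 2 * k') * w' = k' ^ 2 - t := by
    apply mul_left_cancel₀ h20
    rw [← hs', hw']; ring
  have c1 : (2 : O) ∣ s - s' := by
    apply two_dvd_of_two_dvd_sq h2u hmax
    refine ⟨w + w' + c - a - s * s', ?_⟩
    linear_combination hw + hw'
  obtain ⟨r, hr⟩ := c1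
  have d1 : w - w' = 2 * (r * (s' + r)) := by
    apply mul_left_cancel₀ h20
    have e1 : s = s' + 2 * r := by linear_combination hr
    have e2 : 2 * (w - w') = s ^ 2 - s' ^ 2 := by linear_combination hw' - hw
    rw [e2, e1]; ring
  have f1 : (2 : O) ∣ k - k' := by
    apply two_dvd_of_two_dvd_sq h2u hmax
    refine ⟨c * (r * (s' + r)) + k * w - k' * w' + k' ^ 2 - k * k', ?_⟩
    linear_combination b2 - b1 + c * d1
  obtain ⟨j, hj⟩ := f1
  obtain ⟨f, hf⟩ := hm'.exists_left_inv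
  refine ⟨u * m * f, -u * f ^ 2 * j, ?_⟩
  have e2 : f ^ 2 * m' ^ 2 = 1 := by rw [← mul_pow, hf, one_pow]
  linear_combination (-u * f ^ 2) * hk + (u * f ^ 2) * hk' - (u * u') * e2 - (2 * u * f ^ 2) * hj

/-- Case (II): l = - c^2 + 2 t. -/
theorem ring_two_II (h20 : (2 : O) ≠ 0) (h2u : ¬ IsUnit (2 : O))
    (hmax : ∀ x : O, IsUnit x ∨ 2 ∣ x)
    {u a l c t n m : O} (hu : IsUnit u) (hm : IsUnit m) (hlc : l = -c ^ 2 + 2 * t)
    (h : u * n ^ 2 = 2 * ((u * m ^ 2) ^ 2 - 2 * a * (u * m ^ 2) - l)) :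
    ∃ k s : O, (c + 2 * k) * (s ^ 2 - c + a) = 2 * k ^ 2 - t := by
  have h1 : (2 : O) ∣ u * m ^ 2 - c := by
    rcases hmax (u * m ^ 2 - c) with hx | hx
    · exfalso
      refine no_sol_unit h20 h2u hmax hu
        (R := (u * m ^ 2 - c) ^ 2 + 2 * ((c - a) * (u * m ^ 2) - t))
        (isUnit_add_two_mul h2u hmax (hx.pow 2)) (N := n) ?_
      rw [h, hlc]; ring
    · exact hx
  obtain ⟨k, hk⟩ := h1
  have hk' : u * m ^ 2 = c + 2 * k := by linear_combination hk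
  have h40 : (4 : O) ≠ 0 := by
    have : (4 : O) = 2 * 2 := by norm_num
    rw [this]; exact mul_ne_zero h20 h20
  have h3 : u * n ^ 2 = 4 * ((c - a) * (c + 2 * k) + 2 * k ^ 2 - t) := by
    rw [h, hk', hlc]; ring
  have h4 : (2 : O) ∣ n := by
    apply two_dvd_of_two_dvd_sq h2u hmax
    apply two_dvd_of_mul_unit h2u hmax hu
    rw [h3]
    exact ⟨2 * ((c - a) * (c + 2 * k) + 2 * k ^ 2 - t), by ring⟩
  obtain ⟨r, rfl⟩ := h4
  have h5 : u * r ^ 2 = (c - a) * (c + 2 * k) + 2 * k ^ 2 - t := by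
    apply mul_left_cancel₀ h40
    linear_combination h3
  obtain ⟨f, hf⟩ := hm.exists_left_inv
  refine ⟨k, r * f, ?_⟩
  have e2 : f ^ 2 * m ^ 2 = 1 := by rw [← mul_pow, hf, one_pow]
  linear_combination (-(r ^ 2 * f ^ 2)) * hk' + (u * r ^ 2) * e2 + h5

/-- Two classes of units: one of them, or the product, is a square modulo 4. -/
theorem ring_unit_pair (h20 : (2 : O) ≠ 0) (h2u : ¬ IsUnit (2 : O))
    (hmax : ∀ x : O, IsUnit x ∨ 2 ∣ x)
    {u a l N M e u' N' M' e' : O} (hu : IsUnit u) (hu' : IsUnit u') (hl : IsUnit l)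
    (hMe : IsUnit M ∨ IsUnit e) (hMe' : IsUnit M' ∨ IsUnit e')
    (h : u * N ^ 2 = u ^ 2 * M ^ 4 + (-4 * a * u) * (M ^ 2 * e ^ 2) + (-4 * l) * e ^ 4)
    (h' : u' * N' ^ 2 =
      u' ^ 2 * M' ^ 4 + (-4 * a * u') * (M' ^ 2 * e' ^ 2) + (-4 * l) * e' ^ 4) :
    (∃ g, (4 : O) ∣ u - g ^ 2) ∨ (∃ g, (4 : O) ∣ u' - g ^ 2) ∨
      (∃ g, (4 : O) ∣ u * u' - g ^ 2) := by
  rcases ring_unit h20 h2u hmax hu hMe h with h1 | ⟨g, y, hy⟩
  · exact Or.inl h1
  · rcases ring_unit h20 h2u hmax hu' hMe' h' with h1 | ⟨g', y', hy'⟩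
    · exact Or.inr (Or.inl h1)
    · right; right
      obtain ⟨f, hf⟩ := hl.exists_left_inv
      refine ⟨g * g' * f, f ^ 2 * (g ^ 2 * y' + g' ^ 2 * y + 4 * y * y'), ?_⟩
      have e2 : f ^ 2 * l ^ 2 = 1 := by rw [← mul_pow, hf, one_pow]
      have a1 : -l * u = g ^ 2 + 4 * y := by linear_combination hy
      have a2 : -l * u' = g' ^ 2 + 4 * y' := by linear_combination hy'
      have a3 : (-l * u) * (-l * u') = (g ^ 2 + 4 * y) * (g' ^ 2 + 4 * y') := by rw [a1, a2]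
      linear_combination f ^ 2 * a3 - (u * u') * e2

/-- The covering of class u in case (I). -/
theorem ring_unit_I (h20 : (2 : O) ≠ 0) (h2u : ¬ IsUnit (2 : O))
    (hmax : ∀ x : O, IsUnit x ∨ 2 ∣ x)
    {u a l c t N M e : O} (hu : IsUnit u) (hc : IsUnit c) (hMe : IsUnit M ∨ IsUnit e)
    (hlc : l = -c ^ 2 + 4 * t)
    (h : u * N ^ 2 = u ^ 2 * M ^ 4 + (-4 * a * u) * (M ^ 2 * e ^ 2) + (-4 * l) * e ^ 4) :
    ∃ g, (4 : O) ∣ u - g ^ 2 := by
  rcases ring_unit h20 h2u hmax hu hMe h with h1 | ⟨g, y, hy⟩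
  · exact h1
  · obtain ⟨f, hf⟩ := hc.exists_left_inv
    refine ⟨g * f, f ^ 2 * (y + t * u), ?_⟩
    have e2 : f ^ 2 * c ^ 2 = 1 := by rw [← mul_pow, hf, one_pow]
    rw [hlc] at hy
    linear_combination f ^ 2 * hy - u * e2

end

end Pool.Agent.MP009fd8R
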