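import Pool.Agent.Lib.MP_009fd8_ag.Places
import Pool.Agent.Lib.MP_009fd8_ag.ClassLemma
import Pool.Agent.Lib.MP_009fd8_ag.Approx
import Pool.Agent.Lib.MP_009fd8_agR.Local
import Pool.Agent.Lib.MP_009fd8_agR.Ring

/-!
MP_009fd8_ag, descent on y^2 = x^3 + q x: passage between O_K and the completion at 2.
-/

namespace Pool.Agent.MP009fd8R

open IsDedekindDomain NumberField WithZero Pool.Agent.MP009fd8

variable {K : Type*} [Field K] [NumberField K]

/-- The valuation ring of the completion. -/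
noncomputable abbrev OO (v : HeightOneSpectrum (𝓞 K)) : Subring (v.adicCompletion K) :=
  (Valued.v : Valuation (v.adicCompletion K) (WithZero (Multiplicative ℤ))).integer

/-- The map from O_K to the valuation ring of the completion. -/
noncomputable def toO (v : HeightOneSpectrum (𝓞 K)) : 𝓞 K →+* OO v :=
  ((algebraMap K (v.adicCompletion K)).comp (algebraMap (𝓞 K) K)).codRestrict (OO v) (fun x => by
    rw [Valuation.mem_integer_iff, RingHom.comp_apply, val_completion]
    exact v.valuation_le_one x)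

theorem coe_toO (v : HeightOneSpectrum (𝓞 K)) (x : 𝓞 K) :
    ((toO v x : OO v) : v.adicCompletion K) =
      algebraMap K (v.adicCompletion K) (algebraMap (𝓞 K) K x) := rfl

theorem val_toO (v : HeightOneSpectrum (𝓞 K)) (x : 𝓞 K) :
    Valued.v ((toO v x : OO v) : v.adicCompletion K) = v.valuation K (algebraMap (𝓞 K) K x) := by
  rw [coe_toO, val_completion]

variable (h2 : Prime (2 : 𝓞 K))

theorem val_two : Valued.v (2 : (placeOf 2 h2).adicCompletion K) = exp (-1 : ℤ) := by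
  have := val_self (K := K) h2
  rw [← map_ofNat (algebraMap K ((placeOf 2 h2).adicCompletion K)) 2, val_completion,
    ← map_ofNat (algebraMap (𝓞 K) K) 2]
  exact this

theorem two_ne : (2 : OO (placeOf 2 h2)) ≠ 0 := by
  intro h
  have h1 : (2 : (placeOf 2 h2).adicCompletion K) = 0 :=
    congrArg (fun x : OO (placeOf 2 h2) => (x : (placeOf 2 h2).adicCompletion K)) h
  have h3 := val_two h2
  rw [h1, map_zero] at h3
  exact exp_ne_zero h3.symm

theorem two_not_unit : ¬ IsUnit (2 : OO (placeOf 2 h2)) := by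
  intro h
  have h1 := val_of_isUnit _ h
  have h3 : Valued.v (2 : (placeOf 2 h2).adicCompletion K) = 1 := h1
  rw [val_two, ← exp_zero, exp_inj] at h3
  omega

theorem unit_or (x : OO (placeOf 2 h2)) : IsUnit x ∨ 2 ∣ x := by
  rcases lt_or_eq_of_le (show Valued.v (x : (placeOf 2 h2).adicCompletion K) ≤ 1 from x.2) with
    hx | hx
  · right
    have h20 : (2 : (placeOf 2 h2).adicCompletion K) ≠ 0 := by
      intro h
      have h3 := val_two h2
      rw [h, map_zero] at h3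
      exact exp_ne_zero h3.symm
    refine ⟨⟨(x : (placeOf 2 h2).adicCompletion K) / 2, ?_⟩, ?_⟩
    · show Valued.v _ ≤ (1 : WithZero (Multiplicative ℤ))
      rw [map_div₀, val_two, div_le_one₀ (exp_pos)]
      exact le_of_lt_one hx
    · apply Subtype.ext
      show (x : (placeOf 2 h2).adicCompletion K) = 2 * (x / 2)
      rw [mul_div_cancel₀ _ h20]
  · left
    exact isUnit_of_val _ hx

/-- Powers of 2: divisibility in the completion implies divisibility in O_K. -/
theorem dvd_of_dvd (k : ℕ) {r : 𝓞 K} (h : (2 : OO (placeOf 2 h2)) ^ k ∣ toO (placeOf 2 h2) r) :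
    (2 : 𝓞 K) ^ k ∣ r := by
  obtain ⟨y, hy⟩ := h
  have h1 : (placeOf 2 h2).valuation K (algebraMap (𝓞 K) K r) ≤ exp (-(k : ℤ)) := by
    rw [← val_toO, hy]
    show Valued.v ((2 : (placeOf 2 h2).adicCompletion K) ^ k *
      (y : (placeOf 2 h2).adicCompletion K)) ≤ _
    rw [map_mul, map_pow, val_two]
    have h3 : (exp (-1 : ℤ) : WithZero (Multiplicative ℤ)) ^ k = exp (-(k : ℤ)) := by
      rw [← exp_nsmul]
      simp
    rw [h3]
    calc exp (-(k : ℤ)) * Valued.v (y : (placeOf 2 h2).adicCompletion K) ≤ exp (-(k : ℤ)) * 1 := by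
          gcongr
          exact y.2
      _ = _ := mul_one _
  rw [HeightOneSpectrum.valuation_of_algebraMap,
    HeightOneSpectrum.intValuation_le_pow_iff_mem, asIdeal_placeOf, Ideal.span_singleton_pow,
    Ideal.mem_span_singleton] at h1
  exact h1

/-- Approximation. -/
theorem exists_approx (k : ℕ) (g : OO (placeOf 2 h2)) :
    ∃ m : 𝓞 K, (2 : OO (placeOf 2 h2)) ^ k ∣ g - toO (placeOf 2 h2) m := by
  obtain ⟨m, hm⟩ := exists_int_sub_lt (placeOf 2 h2) (g : (placeOf 2 h2).adicCompletion K) g.2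
    (exp (-(k : ℤ))) exp_pos
  refine ⟨m, ?_⟩
  have h20 : (2 : (placeOf 2 h2).adicCompletion K) ≠ 0 := by
    intro h
    have h3 := val_two h2
    rw [h, map_zero] at h3
    exact exp_ne_zero h3.symm
  have h3 : (exp (-1 : ℤ) : WithZero (Multiplicative ℤ)) ^ k = exp (-(k : ℤ)) := by
    rw [← exp_nsmul]
    simp
  refine ⟨⟨((g : (placeOf 2 h2).adicCompletion K) -
    algebraMap K ((placeOf 2 h2).adicCompletion K) (algebraMap (𝓞 K) K m)) / 2 ^ k, ?_⟩, ?_⟩
  · show Valued.v _ ≤ (1 : WithZero (Multiplicative ℤ))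
    rw [map_div₀, map_pow, val_two, h3, div_le_one₀ (exp_pos)]
    exact hm.le
  · apply Subtype.ext
    show (g : (placeOf 2 h2).adicCompletion K) -
      algebraMap K ((placeOf 2 h2).adicCompletion K) (algebraMap (𝓞 K) K m) = 2 ^ k * (_ / 2 ^ k)
    rw [mul_div_cancel₀ _ (pow_ne_zero k h20)]

theorem sq_back (k : ℕ) {y : 𝓞 K} {g : OO (placeOf 2 h2)}
    (h : (2 : OO (placeOf 2 h2)) ^ k ∣ toO (placeOf 2 h2) y - g ^ 2) :
    ∃ m : 𝓞 K, (2 : 𝓞 K) ^ k ∣ y - m ^ 2 := by
  obtain ⟨m, hm⟩ := exists_approx h2 k g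
  refine ⟨m, dvd_of_dvd h2 k ?_⟩
  have h1 : toO (placeOf 2 h2) (y - m ^ 2) = (toO (placeOf 2 h2) y - g ^ 2) +
      (g - toO (placeOf 2 h2) m) * (g + toO (placeOf 2 h2) m) := by
    rw [map_sub, map_pow]; ring
  rw [h1]
  exact dvd_add h (dvd_mul_of_dvd_left hm _)

theorem four_back {y : 𝓞 K} {g : OO (placeOf 2 h2)}
    (h : (4 : OO (placeOf 2 h2)) ∣ toO (placeOf 2 h2) y - g ^ 2) :
    ∃ m : 𝓞 K, (4 : 𝓞 K) ∣ y - m ^ 2 := by
  have e1 : (2 : OO (placeOf 2 h2)) ^ 2 = 4 := by norm_num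
  have e2 : (2 : 𝓞 K) ^ 2 = 4 := by norm_num
  have := sq_back h2 2 (y := y) (g := g) (by rw [e1]; exact h)
  rwa [e2] at this

theorem eight_back {y : 𝓞 K} {g : OO (placeOf 2 h2)}
    (h : (8 : OO (placeOf 2 h2)) ∣ toO (placeOf 2 h2) y - g ^ 2) :
    ∃ m : 𝓞 K, (8 : 𝓞 K) ∣ y - m ^ 2 := by
  have e1 : (2 : OO (placeOf 2 h2)) ^ 3 = 8 := by norm_num
  have e2 : (2 : 𝓞 K) ^ 3 = 8 := by norm_num
  have := sq_back h2 3 (y := y) (g := g) (by rw [e1]; exact h)
  rwa [e2] at this

theorem toO_isUnit {x : 𝓞 K} (hx : ¬ 2 ∣ x) : IsUnit (toO (placeOf 2 h2) x) := by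
  apply isUnit_of_val
  rw [val_toO]
  apply val_eq_one
  rw [mem_placeOf]
  exact hx

end Pool.Agent.MP009fd8R
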