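import Pool.Agent.Lib.MP_009fd8_agR.Global

/-!
MP_009fd8_ag, descent by the isogeny of degree 2 on y^2 = x (x^2 + 2 a x + a^2 + l): assembly.
-/

namespace Pool.Agent.MP009fd8R

open IsDedekindDomain NumberField WithZero Pool.Agent.MP009fd8

theorem HasPt.of_mul_sq {F : Type*} [Field F] {A B d r : F} (hr : r ≠ 0)
    (h : HasPt A B (d * r ^ 2)) : HasPt A B d := by
  have := h.mul_sq (inv_ne_zero hr)
  rwa [mul_assoc, ← mul_pow, mul_inv_cancel₀ hr, one_pow, mul_one] at this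

/-- The square class of B has a point. -/
theorem hasPt_of_isSquare_mul {F : Type*} [Field F] {A B d : F} (hB : B ≠ 0) (hd : d ≠ 0)
    (h : IsSquare (B * d)) : HasPt A B d := by
  have h1 := (hasPt_of_isSquare (A := A) (B := B) (mul_ne_zero hB hd) h).swap (mul_ne_zero hB hd)
  have h3 : B * (B * d) = d * B ^ 2 := by ring
  rw [h3] at h1
  exact h1.of_mul_sq hB

theorem hasPt_class {F : Type*} [Field F] {A B z d : F} (hz : z ≠ 0) (hd : d ≠ 0)
    (hpz : HasPt A B z) (h : IsSquare (z * d)) : HasPt A B d := by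
  obtain ⟨r, hr⟩ := h
  have hr0 : r ≠ 0 := by
    rintro rfl
    rw [mul_zero] at hr
    exact mul_ne_zero hz hd hr
  have e : d = z * (r / z) ^ 2 := by
    field_simp
    linear_combination hr
  rw [e]
  exact hpz.mul_sq (div_ne_zero hr0 hz)

variable {K : Type*} [Field K] [NumberField K]

theorem HasPt.locSol {A B d : K} (h : HasPt A B d) : LocSol K A B d :=
  ⟨fun v => h.map (algebraMap K (v.adicCompletion K)), fun f => h.map f⟩

/-- Locally soluble classes are stable under multiplication by B. -/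
theorem LocSol.mul_b {A B d : K} (hd : d ≠ 0) (h : LocSol K A B d) : LocSol K A B (B * d) := by
  refine ⟨fun v => ?_, fun f => ?_⟩
  · rw [map_mul]
    exact (h.1 v).swap ((map_ne_zero _).mpr hd)
  · rw [map_mul]
    exact (h.2 f).swap ((map_ne_zero _).mpr hd)

theorem LocSol.of_mul_sq {A B d r : K} (hr : r ≠ 0) (h : LocSol K A B (d * r ^ 2)) :
    LocSol K A B d := by
  refine ⟨fun v => ?_, fun f => ?_⟩
  · have := h.1 v
    rw [map_mul, map_pow] at this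
    exact this.of_mul_sq ((map_ne_zero _).mpr hr)
  · have := h.2 f
    rw [map_mul, map_pow] at this
    exact this.of_mul_sq ((map_ne_zero _).mpr hr)

theorem algebraMap_prime_ne {q : 𝓞 K} (hq : Prime q) : algebraMap (𝓞 K) K q ≠ 0 := by
  have := hq.ne_zero
  simpa using this

/-- A prime element is not a square. -/
theorem not_isSquare_prime {q : 𝓞 K} (hq : Prime q) : ¬ IsSquare (algebraMap (𝓞 K) K q) := by
  rintro ⟨r, hr⟩
  apply not_isSquare_exp_neg_one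
  rw [← val_self (K := K) hq, hr, map_mul]
  exact ⟨_, rfl⟩

/-- For a prime element l prime to 2, - 4 l is not a square. -/
theorem not_isSquare_four_mul {l : 𝓞 K} (hl : Prime l) (hl2 : ¬ l ∣ 2) :
    ¬ IsSquare (-4 * algebraMap (𝓞 K) K l) := by
  rintro ⟨r, hr⟩
  apply not_isSquare_exp_neg_one
  have h2v : (placeOf l hl).valuation K (2 : K) = 1 := by
    rw [← map_ofNat (algebraMap (𝓞 K) K) 2]
    apply val_eq_one
    rw [mem_placeOf]
    exact hl2
  have h4 : (placeOf l hl).valuation K (-4 * algebraMap (𝓞 K) K l) = exp (-1 : ℤ) := by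
    have : (-4 : K) = -(2 * 2) := by norm_num
    rw [map_mul, this, Valuation.map_neg, map_mul, h2v, val_self]
    simp
  rw [← h4, hr, map_mul]
  exact ⟨_, rfl⟩

section E

variable (a l q : 𝓞 K) (hal : q = a ^ 2 + l) (hq : Prime q)


include hal hq in
/-- The curve E: classes with even valuation at q. -/
theorem square_of_even (hclass : Odd (NumberField.classNumber K))
    (hpos : ∀ u : (𝓞 K)ˣ, (∀ f : K →+* ℝ, 0 < f (algebraMap (𝓞 K) K (u : 𝓞 K))) → IsSquare u)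
    (hlpos : ∀ f : K →+* ℝ, 0 < f (algebraMap (𝓞 K) K l))
    {d : K} (hd : d ≠ 0) (h : LocSol K (2 * (algebraMap (𝓞 K) K a)) (algebraMap (𝓞 K) K q) d)
    (hv : IsSquare ((placeOf q hq).valuation K d)) : IsSquare d := by
  obtain ⟨u, r, hr, hur⟩ := exists_unit_mul_sq hclass d hd (fun v => by
    by_cases hvq : v = placeOf q hq
    · rw [hvq]; exact hv
    · have h1 := isSquare_val (Valued.v : Valuation (v.adicCompletion K) _)
        ((map_ne_zero (algebraMap K (v.adicCompletion K))).mpr hd)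
        (by
          rw [val_completion]
          have : 2 * (algebraMap (𝓞 K) K a) = algebraMap (𝓞 K) K (2 * a) := by rw [map_mul, map_ofNat]
          rw [this]
          exact v.valuation_le_one _)
        (by rw [val_completion]; exact val_eq_one v (notMem_of_ne hq hvq)) (h.1 v)
      rwa [val_completion] at h1)
  obtain ⟨w, hw⟩ := hpos u (fun f => by
    have h0 := h.2 f
    rw [hal, map_add, map_pow, map_add, map_pow, map_mul, map_ofNat] at h0
    have h1 := real_pos (hlpos f) ((map_ne_zero f).mpr hd) h0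
    rw [hur, map_mul, map_pow] at h1
    have h3 : 0 < f r ^ 2 := by
      have : f r ≠ 0 := (map_ne_zero f).mpr hr
      positivity
    exact pos_of_mul_pos_left h1 h3.le)
  refine ⟨algebraMap (𝓞 K) K (w : 𝓞 K) * r, ?_⟩
  rw [hur, hw, Units.val_mul, map_mul]
  ring

include hal hq in
/-- The curve E: the locally soluble classes are 1 and q. -/
theorem classes_E (hclass : Odd (NumberField.classNumber K))
    (hpos : ∀ u : (𝓞 K)ˣ, (∀ f : K →+* ℝ, 0 < f (algebraMap (𝓞 K) K (u : 𝓞 K))) → IsSquare u)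
    (hlpos : ∀ f : K →+* ℝ, 0 < f (algebraMap (𝓞 K) K l))
    {d : K} (hd : d ≠ 0) (h : LocSol K (2 * (algebraMap (𝓞 K) K a)) (algebraMap (𝓞 K) K q) d) : IsSquare d ∨ IsSquare ((algebraMap (𝓞 K) K q) * d) := by
  rcases isSquare_val_or hq hd with h1 | h1
  · exact Or.inl (square_of_even a l q hal hq hclass hpos hlpos hd h h1)
  · exact Or.inr (square_of_even a l q hal hq hclass hpos hlpos
      (mul_ne_zero (algebraMap_prime_ne hq) hd) (h.mul_b hd) h1)

end E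

section E'

variable (a l : 𝓞 K) (hl : Prime l)


/-- Translation by the torsion point of E'. -/
theorem LocSol.mul_neg {d : K} (hd : d ≠ 0) (h : LocSol K (-4 * (algebraMap (𝓞 K) K a)) (-4 * (algebraMap (𝓞 K) K l)) d) :
    LocSol K (-4 * (algebraMap (𝓞 K) K a)) (-4 * (algebraMap (𝓞 K) K l)) (-(algebraMap (𝓞 K) K l) * d) := by
  have h1 := h.mul_b hd
  have h3 : -4 * (algebraMap (𝓞 K) K l) * d = (-(algebraMap (𝓞 K) K l) * d) * 2 ^ 2 := by ring
  rw [h3] at h1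
  exact h1.of_mul_sq two_ne_zero

include hl in
/-- The curve E': classes with even valuation at l. -/
theorem unit_or_two (hclass : Odd (NumberField.classNumber K)) (h2 : Prime (2 : 𝓞 K))
    {d : K} (hd : d ≠ 0) (h : LocSol K (-4 * (algebraMap (𝓞 K) K a)) (-4 * (algebraMap (𝓞 K) K l)) d)
    (hv : IsSquare ((placeOf l hl).valuation K d)) :
    ∃ (u : (𝓞 K)ˣ) (r : K), r ≠ 0 ∧ (d = algebraMap (𝓞 K) K (u : 𝓞 K) * r ^ 2 ∨
      d = (2 * algebraMap (𝓞 K) K (u : 𝓞 K)) * r ^ 2) := by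
  have h20 : (algebraMap (𝓞 K) K 2) = 2 := map_ofNat _ _
  have hall : ∀ v : HeightOneSpectrum (𝓞 K), v ≠ placeOf 2 h2 → IsSquare (v.valuation K d) := by
    intro v hv2
    by_cases hvl : v = placeOf l hl
    · rw [hvl]; exact hv
    · have h2v : v.valuation K (2 : K) = 1 := by
        rw [← h20]; exact val_eq_one v (notMem_of_ne h2 hv2)
      have hlv : v.valuation K (algebraMap (𝓞 K) K l) = 1 := val_eq_one v (notMem_of_ne hl hvl)
      have hbv : v.valuation K (-4 * (algebraMap (𝓞 K) K l)) = 1 := by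
        have : (-4 : K) = -(2 * 2) := by norm_num
        rw [map_mul, this, Valuation.map_neg, map_mul, h2v, hlv]
        simp
      have hav : v.valuation K (-4 * (algebraMap (𝓞 K) K a)) ≤ 1 := by
        have : -4 * (algebraMap (𝓞 K) K a) = algebraMap (𝓞 K) K (-4 * a) := by
          rw [map_mul, map_neg, map_ofNat]
        rw [this]
        exact v.valuation_le_one _
      have h1 := isSquare_val (Valued.v : Valuation (v.adicCompletion K) _)
        ((map_ne_zero (algebraMap K (v.adicCompletion K))).mpr hd)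
        (by rw [val_completion]; exact hav)
        (by rw [val_completion]; exact hbv) (h.1 v)
      rwa [val_completion] at h1
  rcases isSquare_val_or h2 hd with h1 | h1
  · obtain ⟨u, r, hr, hur⟩ := exists_unit_mul_sq hclass d hd (fun v => by
      by_cases hvv : v = placeOf 2 h2
      · rw [hvv]; exact h1
      · exact hall v hvv)
    exact ⟨u, r, hr, Or.inl hur⟩
  · have h20' : (algebraMap (𝓞 K) K 2) ≠ 0 := by
      rw [map_ofNat]; exact two_ne_zero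
    obtain ⟨u, r, hr, hur⟩ := exists_unit_mul_sq hclass (algebraMap (𝓞 K) K 2 * d)
      (mul_ne_zero h20' hd) (fun v => by
        by_cases hvv : v = placeOf 2 h2
        · rw [hvv]; exact h1
        · rw [map_mul, val_eq_one v (notMem_of_ne h2 hvv), one_mul]
          exact hall v hvv)
    refine ⟨u, r / 2, div_ne_zero hr two_ne_zero, Or.inr ?_⟩
    rw [map_ofNat] at hur
    have : d = (2 * d) / 2 := by ring
    rw [this, hur]; ring

/-- The class of a unit at the place 2. -/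
theorem int_unit (h2 : Prime (2 : 𝓞 K)) (u : (𝓞 K)ˣ)
    (h : HasPt (algebraMap K ((placeOf 2 h2).adicCompletion K) (-4 * (algebraMap (𝓞 K) K a)))
      (algebraMap K ((placeOf 2 h2).adicCompletion K) (-4 * (algebraMap (𝓞 K) K l)))
      (algebraMap K ((placeOf 2 h2).adicCompletion K) (algebraMap (𝓞 K) K (u : 𝓞 K)))) :
    ∃ N M e : OO (placeOf 2 h2), (IsUnit M ∨ IsUnit e) ∧
      toO (placeOf 2 h2) (u : 𝓞 K) * N ^ 2 = toO (placeOf 2 h2) (u : 𝓞 K) ^ 2 * M ^ 4 +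
        (-4 * toO (placeOf 2 h2) a * toO (placeOf 2 h2) (u : 𝓞 K)) * (M ^ 2 * e ^ 2) +
        (-4 * toO (placeOf 2 h2) l) * e ^ 4 := by
  obtain ⟨N, M, e, hne, heq⟩ := h
  have hu : IsUnit (toO (placeOf 2 h2) (u : 𝓞 K)) := u.isUnit.map _
  refine exists_integral
    (Valued.v : Valuation ((placeOf 2 h2).adicCompletion K) (WithZero (Multiplicative ℤ)))
    (toO (placeOf 2 h2) (u : 𝓞 K)) (toO (placeOf 2 h2) (u : 𝓞 K) ^ 2)
    (-4 * toO (placeOf 2 h2) a * toO (placeOf 2 h2) (u : 𝓞 K))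
    (-4 * toO (placeOf 2 h2) l) hu (N := N) hne ?_
  show algebraMap K ((placeOf 2 h2).adicCompletion K) (algebraMap (𝓞 K) K (u : 𝓞 K)) * N ^ 2 =
    algebraMap K ((placeOf 2 h2).adicCompletion K) (algebraMap (𝓞 K) K (u : 𝓞 K)) ^ 2 * M ^ 4 +
    (-4 * algebraMap K ((placeOf 2 h2).adicCompletion K) (algebraMap (𝓞 K) K a) *
      algebraMap K ((placeOf 2 h2).adicCompletion K) (algebraMap (𝓞 K) K (u : 𝓞 K))) *
        (M ^ 2 * e ^ 2) +
    (-4 * algebraMap K ((placeOf 2 h2).adicCompletion K) (algebraMap (𝓞 K) K l)) * e ^ 4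
  rw [heq, map_mul, map_neg, map_ofNat, map_mul, map_neg, map_ofNat]
  ring

/-- The class of twice a unit at the place 2. -/
theorem int_two_unit (h2 : Prime (2 : 𝓞 K)) (hl2 : ¬ 2 ∣ l) (u : (𝓞 K)ˣ)
    (h : HasPt (algebraMap K ((placeOf 2 h2).adicCompletion K) (-4 * (algebraMap (𝓞 K) K a)))
      (algebraMap K ((placeOf 2 h2).adicCompletion K) (-4 * (algebraMap (𝓞 K) K l)))
      (algebraMap K ((placeOf 2 h2).adicCompletion K)
        (2 * algebraMap (𝓞 K) K (u : 𝓞 K)))) :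
    ∃ n m : OO (placeOf 2 h2), IsUnit m ∧
      toO (placeOf 2 h2) (u : 𝓞 K) * n ^ 2 =
        2 * ((toO (placeOf 2 h2) (u : 𝓞 K) * m ^ 2) ^ 2 -
          2 * toO (placeOf 2 h2) a * (toO (placeOf 2 h2) (u : 𝓞 K) * m ^ 2) -
          toO (placeOf 2 h2) l) := by
  obtain ⟨N, M, e, hne, heq⟩ := h
  have hu : IsUnit (toO (placeOf 2 h2) (u : 𝓞 K)) := u.isUnit.map _
  have h20 : (2 : (placeOf 2 h2).adicCompletion K) ≠ 0 := by
    intro h
    have h3 := val_two h2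
    rw [h, map_zero] at h3
    exact exp_ne_zero h3.symm
  obtain ⟨N', M', e', hne', h'⟩ := exists_integral
    (Valued.v : Valuation ((placeOf 2 h2).adicCompletion K) (WithZero (Multiplicative ℤ)))
    (toO (placeOf 2 h2) (u : 𝓞 K)) (2 * toO (placeOf 2 h2) (u : 𝓞 K) ^ 2)
    (-4 * toO (placeOf 2 h2) a * toO (placeOf 2 h2) (u : 𝓞 K))
    (-2 * toO (placeOf 2 h2) l) hu (N := N) hne (by
      show algebraMap K ((placeOf 2 h2).adicCompletion K) (algebraMap (𝓞 K) K (u : 𝓞 K)) * N ^ 2 =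
        (2 * algebraMap K ((placeOf 2 h2).adicCompletion K)
          (algebraMap (𝓞 K) K (u : 𝓞 K)) ^ 2) * M ^ 4 +
        (-4 * algebraMap K ((placeOf 2 h2).adicCompletion K) (algebraMap (𝓞 K) K a) *
          algebraMap K ((placeOf 2 h2).adicCompletion K) (algebraMap (𝓞 K) K (u : 𝓞 K))) *
            (M ^ 2 * e ^ 2) +
        (-2 * algebraMap K ((placeOf 2 h2).adicCompletion K) (algebraMap (𝓞 K) K l)) * e ^ 4
      apply mul_left_cancel₀ h20
      rw [map_mul, map_mul, map_mul, map_neg, map_ofNat, map_ofNat] at heq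
      linear_combination heq)
  exact ring_two_aux (two_ne h2) (two_not_unit h2) (unit_or h2) hu (toO_isUnit h2 hl2) hne' h'

include hl in
/-- Case (I): the classes with even valuation at l. -/
theorem even_I (hclass : Odd (NumberField.classNumber K))
    (hfour : ∀ u : (𝓞 K)ˣ, (∃ m : 𝓞 K, (4 : 𝓞 K) ∣ (u : 𝓞 K) - m ^ 2) → IsSquare u)
    (h2 : Prime (2 : 𝓞 K)) (hl2 : ¬ 2 ∣ l) (c : 𝓞 K) (hlc : 4 ∣ l + c ^ 2)
    {d d' : K} (hd : d ≠ 0) (hd' : d' ≠ 0) (h : LocSol K (-4 * (algebraMap (𝓞 K) K a)) (-4 * (algebraMap (𝓞 K) K l)) d)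
    (h' : LocSol K (-4 * (algebraMap (𝓞 K) K a)) (-4 * (algebraMap (𝓞 K) K l)) d')
    (hv : IsSquare ((placeOf l hl).valuation K d))
    (hv' : IsSquare ((placeOf l hl).valuation K d')) :
    IsSquare d ∨ IsSquare d' ∨ IsSquare (d * d') := by
  have hc2 : ¬ 2 ∣ c := by
    intro hc
    apply hl2
    have h1 : (2 : 𝓞 K) ∣ l + c ^ 2 := dvd_trans ⟨2, by norm_num⟩ hlc
    have h3 : (2 : 𝓞 K) ∣ c ^ 2 := dvd_pow hc two_ne_zero
    have := dvd_sub h1 h3
    simpa using this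
  obtain ⟨t, ht⟩ := hlc
  have hlt : toO (placeOf 2 h2) l = -(toO (placeOf 2 h2) c) ^ 2 + 4 * toO (placeOf 2 h2) t := by
    have : l = -c ^ 2 + 4 * t := by linear_combination ht
    rw [this, map_add, map_neg, map_pow, map_mul, map_ofNat]
  have hcu := toO_isUnit h2 hc2
  -- the classes of units are trivial
  have husq : ∀ (u : (𝓞 K)ˣ) (r z : K), r ≠ 0 → z = algebraMap (𝓞 K) K (u : 𝓞 K) * r ^ 2 →
      LocSol K (-4 * (algebraMap (𝓞 K) K a)) (-4 * (algebraMap (𝓞 K) K l)) z → IsSquare z := by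
    intro u r z hr hz hloc
    rw [hz] at hloc
    obtain ⟨N, M, e, hne, heq⟩ := int_unit a l h2 u ((hloc.of_mul_sq hr).1 _)
    obtain ⟨g, hg⟩ := ring_unit_I (two_ne h2) (two_not_unit h2) (unit_or h2) (u.isUnit.map _)
      hcu hne hlt heq
    obtain ⟨w, hw⟩ := hfour u (four_back h2 hg)
    exact ⟨algebraMap (𝓞 K) K (w : 𝓞 K) * r, by rw [hz, hw, Units.val_mul, map_mul]; ring⟩
  obtain ⟨u, r, hr, hur⟩ := unit_or_two a l hl hclass h2 hd h hv
  obtain ⟨u', r', hr', hur'⟩ := unit_or_two a l hl hclass h2 hd' h' hv'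
  rcases hur with hur | hur
  · exact Or.inl (husq u r d hr hur h)
  · rcases hur' with hur' | hur'
    · exact Or.inr (Or.inl (husq u' r' d' hr' hur' h'))
    · right; right
      rw [hur] at h
      rw [hur'] at h'
      obtain ⟨n, m, hm, heq⟩ := int_two_unit a l h2 hl2 u ((h.of_mul_sq hr).1 _)
      obtain ⟨n', m', hm', heq'⟩ := int_two_unit a l h2 hl2 u' ((h'.of_mul_sq hr').1 _)
      obtain ⟨g, hg⟩ := ring_two_I_pair (two_ne h2) (two_not_unit h2) (unit_or h2)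
        (u.isUnit.map _) (u'.isUnit.map _) hcu hm hm' hlt heq heq'
      rw [← map_mul, ← Units.val_mul] at hg
      obtain ⟨w, hw⟩ := hfour (u * u') (four_back h2 hg)
      have hw' : algebraMap (𝓞 K) K (u : 𝓞 K) * algebraMap (𝓞 K) K (u' : 𝓞 K) =
          algebraMap (𝓞 K) K (w : 𝓞 K) ^ 2 := by
        rw [← map_mul, ← Units.val_mul, hw, Units.val_mul, map_mul]; ring
      refine ⟨2 * algebraMap (𝓞 K) K (w : 𝓞 K) * r * r', ?_⟩
      rw [hur, hur']
      linear_combination (4 * r ^ 2 * r' ^ 2) * hw'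

/-- Case (II) passes to the completion at 2. -/
theorem no_sol_four (h2 : Prime (2 : 𝓞 K)) (c t : 𝓞 K)
    (hT : ∀ k s : 𝓞 K, ¬ 4 ∣ (c + 2 * k) * (s ^ 2 - c + a) - (2 * k ^ 2 - t))
    (k s : OO (placeOf 2 h2)) : (toO (placeOf 2 h2) c + 2 * k) *
      (s ^ 2 - toO (placeOf 2 h2) c + toO (placeOf 2 h2) a) ≠
      2 * k ^ 2 - toO (placeOf 2 h2) t := by
  intro h
  obtain ⟨k', y, hk⟩ := exists_approx h2 2 k
  obtain ⟨s', z, hs⟩ := exists_approx h2 2 s
  apply hT k' s'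
  have e2 : (2 : 𝓞 K) ^ 2 = 4 := by norm_num
  rw [← e2]
  apply dvd_of_dvd h2 2
  have hk1 : toO (placeOf 2 h2) k' = k - 4 * y := by linear_combination -hk
  have hs1 : toO (placeOf 2 h2) s' = s - 4 * z := by linear_combination -hs
  have e3 : (2 : OO (placeOf 2 h2)) ^ 2 = 4 := by norm_num
  rw [e3]
  simp only [map_sub, map_mul, map_add, map_pow, map_ofNat]
  rw [hk1, hs1]
  refine ⟨(toO (placeOf 2 h2) c + 2 * (k - 4 * y)) * (-2 * s * z + 4 * z ^ 2) -
    2 * y * (s ^ 2 - toO (placeOf 2 h2) c + toO (placeOf 2 h2) a) + 4 * k * y - 8 * y ^ 2, ?_⟩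
  linear_combination h

include hl in
/-- Case (II): the classes with even valuation at l. -/
theorem even_II (hclass : Odd (NumberField.classNumber K))
    (hfour : ∀ u : (𝓞 K)ˣ, (∃ m : 𝓞 K, (4 : 𝓞 K) ∣ (u : 𝓞 K) - m ^ 2) → IsSquare u)
    (h2 : Prime (2 : 𝓞 K)) (hl2 : ¬ 2 ∣ l) (c t : 𝓞 K) (hlc : l = -c ^ 2 + 2 * t)
    (hT : ∀ k s : 𝓞 K, ¬ 4 ∣ (c + 2 * k) * (s ^ 2 - c + a) - (2 * k ^ 2 - t))
    {d d' : K} (hd : d ≠ 0) (hd' : d' ≠ 0) (h : LocSol K (-4 * (algebraMap (𝓞 K) K a)) (-4 * (algebraMap (𝓞 K) K l)) d)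
    (h' : LocSol K (-4 * (algebraMap (𝓞 K) K a)) (-4 * (algebraMap (𝓞 K) K l)) d')
    (hv : IsSquare ((placeOf l hl).valuation K d))
    (hv' : IsSquare ((placeOf l hl).valuation K d')) :
    IsSquare d ∨ IsSquare d' ∨ IsSquare (d * d') := by
  have hlt : toO (placeOf 2 h2) l = -(toO (placeOf 2 h2) c) ^ 2 + 2 * toO (placeOf 2 h2) t := by
    rw [hlc, map_add, map_neg, map_pow, map_mul, map_ofNat]
  -- no classes of twice a unit
  have hno : ∀ (u : (𝓞 K)ˣ) (r z : K), r ≠ 0 →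
      z = (2 * algebraMap (𝓞 K) K (u : 𝓞 K)) * r ^ 2 →
      LocSol K (-4 * (algebraMap (𝓞 K) K a)) (-4 * (algebraMap (𝓞 K) K l)) z → False := by
    intro u r z hr hz hloc
    rw [hz] at hloc
    obtain ⟨n, m, hm, heq⟩ := int_two_unit a l h2 hl2 u ((hloc.of_mul_sq hr).1 _)
    obtain ⟨k, s, hks⟩ := ring_two_II (two_ne h2) (two_not_unit h2) (unit_or h2)
      (u.isUnit.map _) hm hlt heq
    exact no_sol_four a h2 c t hT k s hks
  obtain ⟨u, r, hr, hur⟩ := unit_or_two a l hl hclass h2 hd h hv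
  obtain ⟨u', r', hr', hur'⟩ := unit_or_two a l hl hclass h2 hd' h' hv'
  rcases hur with hur | hur
  · rcases hur' with hur' | hur'
    · rw [hur] at h
      rw [hur'] at h'
      obtain ⟨N, M, e, hne, heq⟩ := int_unit a l h2 u ((h.of_mul_sq hr).1 _)
      obtain ⟨N', M', e', hne', heq'⟩ := int_unit a l h2 u' ((h'.of_mul_sq hr').1 _)
      rcases ring_unit_pair (two_ne h2) (two_not_unit h2) (unit_or h2) (u.isUnit.map _)
        (u'.isUnit.map _) (toO_isUnit h2 hl2) hne hne' heq heq' with ⟨g, hg⟩ | ⟨g, hg⟩ | ⟨g, hg⟩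
      · obtain ⟨w, hw⟩ := hfour u (four_back h2 hg)
        left
        exact ⟨algebraMap (𝓞 K) K (w : 𝓞 K) * r, by rw [hur, hw, Units.val_mul, map_mul]; ring⟩
      · obtain ⟨w, hw⟩ := hfour u' (four_back h2 hg)
        right; left
        exact ⟨algebraMap (𝓞 K) K (w : 𝓞 K) * r', by
          rw [hur', hw, Units.val_mul, map_mul]; ring⟩
      · rw [← map_mul, ← Units.val_mul] at hg
        obtain ⟨w, hw⟩ := hfour (u * u') (four_back h2 hg)
        have hw' : algebraMap (𝓞 K) K (u : 𝓞 K) * algebraMap (𝓞 K) K (u' : 𝓞 K) =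
            algebraMap (𝓞 K) K (w : 𝓞 K) ^ 2 := by
          rw [← map_mul, ← Units.val_mul, hw, Units.val_mul, map_mul]; ring
        right; right
        refine ⟨algebraMap (𝓞 K) K (w : 𝓞 K) * r * r', ?_⟩
        rw [hur, hur']
        linear_combination (r ^ 2 * r' ^ 2) * hw'
    · exact (hno u' r' d' hr' hur' h').elim
  · exact (hno u r d hr hur h).elim

/-- The rank zero case passes to the completion at 2. -/
theorem no_sol_eight (h2 : Prime (2 : 𝓞 K)) (c t : 𝓞 K)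
    (hT : ∀ k s : 𝓞 K, ¬ 8 ∣ (c + 2 * k) * (s ^ 2 - c + a) - 2 * (k ^ 2 - t))
    (k s : OO (placeOf 2 h2)) : (toO (placeOf 2 h2) c + 2 * k) *
      (s ^ 2 - toO (placeOf 2 h2) c + toO (placeOf 2 h2) a) ≠
      2 * (k ^ 2 - toO (placeOf 2 h2) t) := by
  intro h
  obtain ⟨k', y, hk⟩ := exists_approx h2 3 k
  obtain ⟨s', z, hs⟩ := exists_approx h2 3 s
  apply hT k' s'
  have e2 : (2 : 𝓞 K) ^ 3 = 8 := by norm_num
  rw [← e2]
  apply dvd_of_dvd h2 3
  have hk1 : toO (placeOf 2 h2) k' = k - 8 * y := by linear_combination -hk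
  have hs1 : toO (placeOf 2 h2) s' = s - 8 * z := by linear_combination -hs
  have e3 : (2 : OO (placeOf 2 h2)) ^ 3 = 8 := by norm_num
  rw [e3]
  simp only [map_sub, map_mul, map_add, map_pow, map_ofNat]
  rw [hk1, hs1]
  refine ⟨(toO (placeOf 2 h2) c + 2 * (k - 8 * y)) * (-2 * s * z + 8 * z ^ 2) -
    2 * y * (s ^ 2 - toO (placeOf 2 h2) c + toO (placeOf 2 h2) a) + 4 * k * y - 16 * y ^ 2, ?_⟩
  linear_combination h

include hl in
/-- Rank zero: the classes with even valuation at l. -/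
theorem even_zero (hclass : Odd (NumberField.classNumber K))
    (hfour : ∀ u : (𝓞 K)ˣ, (∃ m : 𝓞 K, (4 : 𝓞 K) ∣ (u : 𝓞 K) - m ^ 2) → IsSquare u)
    (h2 : Prime (2 : 𝓞 K)) (hl2 : ¬ 2 ∣ l) (c t : 𝓞 K) (hlc : l = -c ^ 2 + 4 * t)
    (hT : ∀ k s : 𝓞 K, ¬ 8 ∣ (c + 2 * k) * (s ^ 2 - c + a) - 2 * (k ^ 2 - t))
    {d : K} (hd : d ≠ 0) (h : LocSol K (-4 * (algebraMap (𝓞 K) K a)) (-4 * (algebraMap (𝓞 K) K l)) d)
    (hv : IsSquare ((placeOf l hl).valuation K d)) : IsSquare d := by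
  have hc2 : ¬ 2 ∣ c := by
    intro hc
    apply hl2
    rw [hlc]
    exact dvd_add (dvd_neg.mpr (dvd_pow hc two_ne_zero)) ⟨2 * t, by ring⟩
  have hlt : toO (placeOf 2 h2) l = -(toO (placeOf 2 h2) c) ^ 2 + 4 * toO (placeOf 2 h2) t := by
    rw [hlc, map_add, map_neg, map_pow, map_mul, map_ofNat]
  obtain ⟨u, r, hr, hur⟩ := unit_or_two a l hl hclass h2 hd h hv
  rcases hur with hur | hur
  · rw [hur] at h
    obtain ⟨N, M, e, hne, heq⟩ := int_unit a l h2 u ((h.of_mul_sq hr).1 _)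
    obtain ⟨g, hg⟩ := ring_unit_I (two_ne h2) (two_not_unit h2) (unit_or h2) (u.isUnit.map _)
      (toO_isUnit h2 hc2) hne hlt heq
    obtain ⟨w, hw⟩ := hfour u (four_back h2 hg)
    exact ⟨algebraMap (𝓞 K) K (w : 𝓞 K) * r, by rw [hur, hw, Units.val_mul, map_mul]; ring⟩
  · exfalso
    rw [hur] at h
    obtain ⟨n, m, hm, heq⟩ := int_two_unit a l h2 hl2 u ((h.of_mul_sq hr).1 _)
    obtain ⟨s, k, hk, hs⟩ := ring_two_I (two_ne h2) (two_not_unit h2) (unit_or h2)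
      (u.isUnit.map _) hm hlt heq
    exact no_sol_eight a h2 c t hT k s hs

include hl in
/-- At most two classes modulo the class of - l. -/
theorem pair (hclass : Odd (NumberField.classNumber K))
    (hfour : ∀ u : (𝓞 K)ˣ, (∃ m : 𝓞 K, (4 : 𝓞 K) ∣ (u : 𝓞 K) - m ^ 2) → IsSquare u)
    (h2 : Prime (2 : 𝓞 K)) (hl2 : ¬ 2 ∣ l)
    (hT : (∃ c : 𝓞 K, 4 ∣ l + c ^ 2) ∨ (∃ c t : 𝓞 K, l = -c ^ 2 + 2 * t ∧
      ∀ k s : 𝓞 K, ¬ 4 ∣ (c + 2 * k) * (s ^ 2 - c + a) - (2 * k ^ 2 - t)))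
    {d d' : K} (hd : d ≠ 0) (hd' : d' ≠ 0) (h : LocSol K (-4 * (algebraMap (𝓞 K) K a)) (-4 * (algebraMap (𝓞 K) K l)) d)
    (h' : LocSol K (-4 * (algebraMap (𝓞 K) K a)) (-4 * (algebraMap (𝓞 K) K l)) d') :
    IsSquare d ∨ IsSquare (-(algebraMap (𝓞 K) K l) * d) ∨ IsSquare d' ∨ IsSquare (-(algebraMap (𝓞 K) K l) * d') ∨
      IsSquare (d * d') ∨ IsSquare (-(algebraMap (𝓞 K) K l) * (d * d')) := by
  have key : ∀ z z' : K, z ≠ 0 → z' ≠ 0 → LocSol K (-4 * (algebraMap (𝓞 K) K a)) (-4 * (algebraMap (𝓞 K) K l)) z →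
      LocSol K (-4 * (algebraMap (𝓞 K) K a)) (-4 * (algebraMap (𝓞 K) K l)) z' →
      IsSquare ((placeOf l hl).valuation K z) → IsSquare ((placeOf l hl).valuation K z') →
      IsSquare z ∨ IsSquare z' ∨ IsSquare (z * z') := by
    intro z z' hz hz' hloc hloc' hv hv'
    rcases hT with ⟨c, hc⟩ | ⟨c, t, hc, hct⟩
    · exact even_I a l hl hclass hfour h2 hl2 c hc hz hz' hloc hloc' hv hv'
    · exact even_II a l hl hclass hfour h2 hl2 c t hc hct hz hz' hloc hloc' hv hv'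
  have hval : ∀ z : K, (placeOf l hl).valuation K (-(algebraMap (𝓞 K) K l) * z) =
      (placeOf l hl).valuation K ((algebraMap (𝓞 K) K l) * z) := by
    intro z
    rw [neg_mul, Valuation.map_neg]
  have hl0 := algebraMap_prime_ne hl
  have hnl : ∀ z : K, z ≠ 0 → -(algebraMap (𝓞 K) K l) * z ≠ 0 := fun z hz => mul_ne_zero (neg_ne_zero.mpr hl0) hz
  have hsq : ∀ z z' : K, IsSquare ((-(algebraMap (𝓞 K) K l) * z) * (-(algebraMap (𝓞 K) K l) * z')) → IsSquare (z * z') := by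
    rintro z z' ⟨r, hr⟩
    refine ⟨r / (algebraMap (𝓞 K) K l), ?_⟩
    field_simp
    linear_combination hr
  rcases isSquare_val_or hl hd with h1 | h1 <;> rcases isSquare_val_or hl hd' with h3 | h3
  · rcases key d d' hd hd' h h' h1 h3 with h4 | h4 | h4
    · exact Or.inl h4
    · exact Or.inr (Or.inr (Or.inl h4))
    · exact Or.inr (Or.inr (Or.inr (Or.inr (Or.inl h4))))
  · rcases key d (-(algebraMap (𝓞 K) K l) * d') hd (hnl d' hd') h (LocSol.mul_neg a l hd' h') h1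
      (by rw [hval]; exact h3) with h4 | h4 | h4
    · exact Or.inl h4
    · exact Or.inr (Or.inr (Or.inr (Or.inl h4)))
    · right; right; right; right; right
      have e : d * (-(algebraMap (𝓞 K) K l) * d') = -(algebraMap (𝓞 K) K l) * (d * d') := by ring
      rwa [e] at h4
  · rcases key (-(algebraMap (𝓞 K) K l) * d) d' (hnl d hd) hd' (LocSol.mul_neg a l hd h) h' (by rw [hval]; exact h1)
      h3 with h4 | h4 | h4
    · exact Or.inr (Or.inl h4)
    · exact Or.inr (Or.inr (Or.inl h4))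
    · right; right; right; right; right
      have e : (-(algebraMap (𝓞 K) K l) * d) * d' = -(algebraMap (𝓞 K) K l) * (d * d') := by ring
      rwa [e] at h4
  · rcases key (-(algebraMap (𝓞 K) K l) * d) (-(algebraMap (𝓞 K) K l) * d') (hnl d hd) (hnl d' hd') (LocSol.mul_neg a l hd h)
      (LocSol.mul_neg a l hd' h') (by rw [hval]; exact h1) (by rw [hval]; exact h3) with
        h4 | h4 | h4
    · exact Or.inr (Or.inl h4)
    · exact Or.inr (Or.inr (Or.inr (Or.inl h4)))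
    · exact Or.inr (Or.inr (Or.inr (Or.inr (Or.inl (hsq d d' h4)))))

include hl in
/-- Rank zero. -/
theorem zero (hclass : Odd (NumberField.classNumber K))
    (hfour : ∀ u : (𝓞 K)ˣ, (∃ m : 𝓞 K, (4 : 𝓞 K) ∣ (u : 𝓞 K) - m ^ 2) → IsSquare u)
    (h2 : Prime (2 : 𝓞 K)) (hl2 : ¬ 2 ∣ l) (c t : 𝓞 K) (hlc : l = -c ^ 2 + 4 * t)
    (hT : ∀ k s : 𝓞 K, ¬ 8 ∣ (c + 2 * k) * (s ^ 2 - c + a) - 2 * (k ^ 2 - t))
    {d : K} (hd : d ≠ 0) (h : LocSol K (-4 * (algebraMap (𝓞 K) K a)) (-4 * (algebraMap (𝓞 K) K l)) d) :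
    IsSquare d ∨ IsSquare (-(algebraMap (𝓞 K) K l) * d) := by
  rcases isSquare_val_or hl hd with h1 | h1
  · exact Or.inl (even_zero a l hl hclass hfour h2 hl2 c t hlc hT hd h h1)
  · refine Or.inr (even_zero a l hl hclass hfour h2 hl2 c t hlc hT
      (mul_ne_zero (neg_ne_zero.mpr (algebraMap_prime_ne hl)) hd) (LocSol.mul_neg a l hd h) ?_)
    rw [neg_mul, Valuation.map_neg]
    exact h1

theorem hasPt_neg {z : K} (hz : z ≠ 0) (h : HasPt (-4 * (algebraMap (𝓞 K) K a)) (-4 * (algebraMap (𝓞 K) K l)) z) :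
    HasPt (-4 * (algebraMap (𝓞 K) K a)) (-4 * (algebraMap (𝓞 K) K l)) (-(algebraMap (𝓞 K) K l) * z) := by
  have h5 := h.swap hz
  have e : -4 * (algebraMap (𝓞 K) K l) * z = (-(algebraMap (𝓞 K) K l) * z) * 2 ^ 2 := by ring
  rw [e] at h5
  exact h5.of_mul_sq two_ne_zero

include hl in
/-- Assembly. -/
theorem descent (hclass : Odd (NumberField.classNumber K))
    (hpos : ∀ u : (𝓞 K)ˣ, (∀ f : K →+* ℝ, 0 < f (algebraMap (𝓞 K) K (u : 𝓞 K))) → IsSquare u)
    (hfour : ∀ u : (𝓞 K)ˣ, (∃ m : 𝓞 K, (4 : 𝓞 K) ∣ (u : 𝓞 K) - m ^ 2) → IsSquare u)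
    (h2 : Prime (2 : 𝓞 K)) (hl2 : ¬ 2 ∣ l) (hlpos : ∀ f : K →+* ℝ, 0 < f (algebraMap (𝓞 K) K l))
    (q : 𝓞 K) (hal : q = a ^ 2 + l) (hq : Prime q) :
    (∀ d : K, d ≠ 0 → (LocSol K (2 * (algebraMap (𝓞 K) K a)) (algebraMap (𝓞 K) K q) d ↔
        HasPt (2 * (algebraMap (𝓞 K) K a)) (algebraMap (𝓞 K) K q) d) ∧
      (HasPt (2 * (algebraMap (𝓞 K) K a)) (algebraMap (𝓞 K) K q) d ↔
        IsSquare d ∨ IsSquare (algebraMap (𝓞 K) K q * d))) ∧
    (((∃ c : 𝓞 K, 4 ∣ l + c ^ 2) ∨ (∃ c t : 𝓞 K, l = -c ^ 2 + 2 * t ∧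
      ∀ k s : 𝓞 K, ¬ 4 ∣ (c + 2 * k) * (s ^ 2 - c + a) - (2 * k ^ 2 - t))) →
      (∀ d d' : K, d ≠ 0 → d' ≠ 0 → LocSol K (-4 * (algebraMap (𝓞 K) K a)) (-4 * (algebraMap (𝓞 K) K l)) d →
        LocSol K (-4 * (algebraMap (𝓞 K) K a)) (-4 * (algebraMap (𝓞 K) K l)) d' →
        IsSquare d ∨ IsSquare (-(algebraMap (𝓞 K) K l) * d) ∨ IsSquare d' ∨ IsSquare (-(algebraMap (𝓞 K) K l) * d') ∨
        IsSquare (d * d') ∨ IsSquare (-(algebraMap (𝓞 K) K l) * (d * d'))) ∧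
      (∀ d₀ : K, d₀ ≠ 0 → HasPt (-4 * (algebraMap (𝓞 K) K a)) (-4 * (algebraMap (𝓞 K) K l)) d₀ → ¬ IsSquare d₀ →
        ¬ IsSquare (-(algebraMap (𝓞 K) K l) * d₀) →
        ∀ d : K, d ≠ 0 → (LocSol K (-4 * (algebraMap (𝓞 K) K a)) (-4 * (algebraMap (𝓞 K) K l)) d ↔ HasPt (-4 * (algebraMap (𝓞 K) K a)) (-4 * (algebraMap (𝓞 K) K l)) d) ∧
          (HasPt (-4 * (algebraMap (𝓞 K) K a)) (-4 * (algebraMap (𝓞 K) K l)) d ↔ IsSquare d ∨ IsSquare (-(algebraMap (𝓞 K) K l) * d) ∨ IsSquare (d₀ * d) ∨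
            IsSquare (-(algebraMap (𝓞 K) K l) * (d₀ * d))))) ∧
    (∀ c t : 𝓞 K, l = -c ^ 2 + 4 * t →
      (∀ k s : 𝓞 K, ¬ 8 ∣ (c + 2 * k) * (s ^ 2 - c + a) - 2 * (k ^ 2 - t)) →
      ∀ d : K, d ≠ 0 → (LocSol K (-4 * (algebraMap (𝓞 K) K a)) (-4 * (algebraMap (𝓞 K) K l)) d ↔ HasPt (-4 * (algebraMap (𝓞 K) K a)) (-4 * (algebraMap (𝓞 K) K l)) d) ∧
        (HasPt (-4 * (algebraMap (𝓞 K) K a)) (-4 * (algebraMap (𝓞 K) K l)) d ↔ IsSquare d ∨ IsSquare (-(algebraMap (𝓞 K) K l) * d))) := by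
  have hq0 := algebraMap_prime_ne hq
  have hl0 := algebraMap_prime_ne hl
  have hone : HasPt (-4 * (algebraMap (𝓞 K) K a)) (-4 * (algebraMap (𝓞 K) K l)) (1 : K) := hasPt_of_isSquare one_ne_zero ⟨1, by ring⟩
  have hnl1 : -(algebraMap (𝓞 K) K l) * (1 : K) ≠ 0 := by simpa using hl0
  refine ⟨fun d hd => ?_, fun hT => ⟨fun d d' hd hd' h h' =>
    pair a l hl hclass hfour h2 hl2 hT hd hd' h h', fun d₀ hd0 hp hn1 hn2 d hd => ?_⟩,
    fun c t hlc hT d hd => ?_⟩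
  · have h1 : LocSol K (2 * (algebraMap (𝓞 K) K a)) (algebraMap (𝓞 K) K q) d →
        IsSquare d ∨ IsSquare (algebraMap (𝓞 K) K q * d) :=
      classes_E a l q hal hq hclass hpos hlpos hd
    have h3 : IsSquare d ∨ IsSquare (algebraMap (𝓞 K) K q * d) →
        HasPt (2 * (algebraMap (𝓞 K) K a)) (algebraMap (𝓞 K) K q) d := by
      rintro (h | h)
      · exact hasPt_of_isSquare hd h
      · exact hasPt_of_isSquare_mul hq0 hd h
    exact ⟨⟨fun h => h3 (h1 h), fun h => h.locSol⟩, ⟨fun h => h1 h.locSol, h3⟩⟩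
  · have h1 : LocSol K (-4 * (algebraMap (𝓞 K) K a)) (-4 * (algebraMap (𝓞 K) K l)) d → IsSquare d ∨ IsSquare (-(algebraMap (𝓞 K) K l) * d) ∨
        IsSquare (d₀ * d) ∨ IsSquare (-(algebraMap (𝓞 K) K l) * (d₀ * d)) := by
      intro h
      rcases pair a l hl hclass hfour h2 hl2 hT hd0 hd hp.locSol h with
        h4 | h4 | h4 | h4 | h4 | h4
      · exact absurd h4 hn1
      · exact absurd h4 hn2
      · exact Or.inl h4
      · exact Or.inr (Or.inl h4)
      · exact Or.inr (Or.inr (Or.inl h4))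
      · exact Or.inr (Or.inr (Or.inr h4))
    have h3 : IsSquare d ∨ IsSquare (-(algebraMap (𝓞 K) K l) * d) ∨ IsSquare (d₀ * d) ∨
        IsSquare (-(algebraMap (𝓞 K) K l) * (d₀ * d)) → HasPt (-4 * (algebraMap (𝓞 K) K a)) (-4 * (algebraMap (𝓞 K) K l)) d := by
      rintro (h | h | h | h)
      · exact hasPt_class one_ne_zero hd hone (by rwa [one_mul])
      · exact hasPt_class hnl1 hd (hasPt_neg a l one_ne_zero hone) (by rwa [mul_one])
      · exact hasPt_class hd0 hd hp h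
      · exact hasPt_class (mul_ne_zero (neg_ne_zero.mpr hl0) hd0) hd (hasPt_neg a l hd0 hp)
          (by rwa [mul_assoc])
    exact ⟨⟨fun h => h3 (h1 h), fun h => h.locSol⟩, ⟨fun h => h1 h.locSol, h3⟩⟩
  · have h1 : LocSol K (-4 * (algebraMap (𝓞 K) K a)) (-4 * (algebraMap (𝓞 K) K l)) d → IsSquare d ∨ IsSquare (-(algebraMap (𝓞 K) K l) * d) :=
      zero a l hl hclass hfour h2 hl2 c t hlc hT hd
    have h3 : IsSquare d ∨ IsSquare (-(algebraMap (𝓞 K) K l) * d) → HasPt (-4 * (algebraMap (𝓞 K) K a)) (-4 * (algebraMap (𝓞 K) K l)) d := by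
      rintro (h | h)
      · exact hasPt_class one_ne_zero hd hone (by rwa [one_mul])
      · exact hasPt_class hnl1 hd (hasPt_neg a l one_ne_zero hone) (by rwa [mul_one])
    exact ⟨⟨fun h => h3 (h1 h), fun h => h.locSol⟩, ⟨fun h => h1 h.locSol, h3⟩⟩

/-- The explicit family: the class 2 u has a point and is not the class of a torsion point. -/
theorem explicit_point (h2 : Prime (2 : 𝓞 K)) (hl2 : ¬ 2 ∣ l) (u : (𝓞 K)ˣ) (x y : 𝓞 K)
    (hlxy : l = (u : 𝓞 K) ^ 2 * x ^ 4 - 2 * a * (u : 𝓞 K) * x ^ 2 - 2 * (u : 𝓞 K) * y ^ 2) :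
    HasPt (-4 * (algebraMap (𝓞 K) K a)) (-4 * (algebraMap (𝓞 K) K l)) (2 * algebraMap (𝓞 K) K (u : 𝓞 K)) ∧
      ¬ IsSquare (2 * algebraMap (𝓞 K) K (u : 𝓞 K)) ∧
      ¬ IsSquare (-(algebraMap (𝓞 K) K l) * (2 * algebraMap (𝓞 K) K (u : 𝓞 K))) := by
  have h20 : (algebraMap (𝓞 K) K 2) = 2 := map_ofNat _ _
  have hv : (placeOf 2 h2).valuation K (2 * algebraMap (𝓞 K) K (u : 𝓞 K)) = exp (-1 : ℤ) := by
    rw [map_mul, ← h20, val_self, val_unit, mul_one]
  have hvl : (placeOf 2 h2).valuation K (algebraMap (𝓞 K) K l) = 1 := by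
    apply val_eq_one
    rw [mem_placeOf]
    exact hl2
  refine ⟨⟨2 * algebraMap (𝓞 K) K y, algebraMap (𝓞 K) K x, 1, Or.inr one_ne_zero, ?_⟩, ?_, ?_⟩
  · rw [hlxy]
    simp only [map_sub, map_mul, map_pow, h20]
    ring
  · rintro ⟨r, hr⟩
    apply not_isSquare_exp_neg_one
    rw [← hv, hr, map_mul]
    exact ⟨_, rfl⟩
  · rintro ⟨r, hr⟩
    apply not_isSquare_exp_neg_one
    rw [← hv]
    have : (placeOf 2 h2).valuation K (-(algebraMap (𝓞 K) K l) * (2 * algebraMap (𝓞 K) K (u : 𝓞 K))) =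
        (placeOf 2 h2).valuation K (2 * algebraMap (𝓞 K) K (u : 𝓞 K)) := by
      rw [map_mul, Valuation.map_neg, hvl, one_mul]
    rw [← this, hr, map_mul]
    exact ⟨_, rfl⟩

end E'

end Pool.Agent.MP009fd8R
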